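import Pool.Agent.X190.FreeProd3

/-! The reduced free product of `O_∞` with an infinite reduced free power of `C` need not be
isomorphic to that free power by a state preserving isomorphism. -/

set_option autoImplicit false

namespace Pool.Agent.Results.MP_123484_an.NotStateIsomorphic

open Pool.Agent.X190.States Pool.Agent.X190.Fock Pool.Agent.X190.Cuntz Pool.Agent.X190.FreeProd

/-- There are a purely infinite simple separable unital C*-algebra `C`, a state `σ` on `C` and a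
state `ω` on (a copy `O` of) `O_∞`, such that the reduced free product `(D, ρ)` of countably
infinitely many copies of `(C, σ)` exists, the reduced free product `(E, τ)` of `(O_∞, ω)` and
`(D, ρ)` exists, and whatever realisations of these are taken, no *-isomorphism `θ : E → D` satisfies
`ρ ∘ θ = τ`. -/
theorem result : ∃ (O : Type) (_ : CStarAlgebra O) (s : ℕ → O), IsCuntzInfinity O s ∧
    ∃ (C : Type) (_ : CStarAlgebra C), TopologicalSpace.SeparableSpace C ∧
      IsPurelyInfiniteSimple C ∧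
    ∃ (σ : C →L[ℂ] ℂ) (ω : O →L[ℂ] ℂ), IsState σ ∧ IsState ω ∧
      (∃ (D : Type) (_ : CStarAlgebra D) (ρ : D →L[ℂ] ℂ) (e : ℕ → (C →⋆ₐ[ℂ] D)),
        IsRedFreeProd (fun _ : ℕ => C) (fun _ => σ) ρ e) ∧
      ∀ (D : Type) [CStarAlgebra D] (ρ : D →L[ℂ] ℂ) (e : ℕ → (C →⋆ₐ[ℂ] D)),
        IsRedFreeProd (fun _ : ℕ => C) (fun _ => σ) ρ e →
        (∃ (E : Type) (_ : CStarAlgebra E) (τ : E →L[ℂ] ℂ) (i : O →⋆ₐ[ℂ] E) (k : D →⋆ₐ[ℂ] E),
          IsRedFreeProd₂ ω ρ τ i k) ∧
        ∀ (E : Type) [CStarAlgebra E] (τ : E →L[ℂ] ℂ) (i : O →⋆ₐ[ℂ] E) (k : D →⋆ₐ[ℂ] E),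
          IsRedFreeProd₂ ω ρ τ i k → ¬ ∃ θ : E ≃⋆ₐ[ℂ] D, ∀ x, ρ (θ x) = τ x := by
  refine ⟨OO, inferInstance, (sys ℕ).s, isCuntzInfinity, OO, inferInstance, separable,
    isPurelyInfiniteSimple, vac ℕ, mix 0, vac_state, mix_state 0,
    exists_redFreeProd (fun _ : ℕ => OO) (fun _ => vac ℕ) (fun _ => vac_state), ?_⟩
  intro D _ ρ e h
  refine ⟨exists_redFreeProd₂ _ _ _ _ (mix_state 0) h.state, ?_⟩
  intro E _ τ i k h₂
  rintro ⟨θ, hθ⟩
  have hP := pdense h (fun _ => vac_state) (fun _ => vac_pdense)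
  have hP' : Pdense τ := hP.iso θ.symm (fun x => by
    rw [← hθ, StarAlgEquiv.apply_symm_apply])
  exact not_pdense h₂.toFam (j := true) (b := (pr 0 : OO)) (mix_central 0) mix_crit hP'

end Pool.Agent.Results.MP_123484_an.NotStateIsomorphic
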